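import Pool.Agent.Hhelper13.Pile.Main

/-!
# Every projective pile embeds into a free profinite product, with the right stabilisers

For every projective pile `(G, T)` there are a profinite group `C`, a free profinite group `F`,
the free profinite product `H = C ⨿ F` and an embedding `e : G → H` such that every stabiliser
`G_t` is the intersection of `G` with a conjugate of `C`.  So the family of groups can always be
taken over a one point space.
-/

universe u

namespace Pool.Agent.Results.MP_34922e_al.ProjectivePiles

open Pool.Agent.Hhelper13.Piles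

theorem result (P : Pile.{u}) (hP : P.IsProjective) :
    ∃ (C F H : ProfiniteGrp.{u}) (S : Type u) (s : S → F) (i : C →ₜ* H) (j : F →ₜ* H)
      (e : P.G →ₜ* H),
      IsFreeProfinite s ∧ IsFreeProfiniteProduct i j ∧ Function.Injective i ∧
      Function.Injective e ∧
      ∀ t : P.T, ∃ h : H, ∀ g : P.G, g • t = t ↔ ∃ c : C, e g = h⁻¹ * i c * h := by
  obtain ⟨C, F, H, S, s, i, j, e, h1, h2, h3, h4⟩ := main P hP
  refine ⟨C, F, H, S, s, i, j, e, h1, h2, ?_, h3, h4⟩
  obtain ⟨k, ⟨hk, -⟩, -⟩ := h2 C (ContinuousMonoidHom.id C) 1
  intro a b hab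
  have ha : k (i a) = a := hk a
  have hb : k (i b) = b := hk b
  rw [← ha, ← hb, hab]

end Pool.Agent.Results.MP_34922e_al.ProjectivePiles
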